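import Pool.Agent.Helper6.NX.GoalsA

/-! # NX (MP_75608d_al), packet L7: entropies of mixtures and products -/

namespace Pool.Agent.Helper51.NX

open Pool.Agent.Helper6.NX

theorem law_pos51 {Ω α : Type} [Fintype Ω] {P : Ω → ℝ} (hP : IsLaw P) (X : Ω → α) {ω : Ω}
    (h : P ω ≠ 0) : 0 < law P X (X ω) := by
  classical
  have h1 : 0 < P ω := lt_of_le_of_ne (hP.1 ω) (Ne.symm h)
  refine lt_of_lt_of_le h1 ?_
  unfold law
  have h2 := Finset.single_le_sum (f := fun ω' => if X ω' = X ω then P ω' else 0)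
    (fun ω' _ => by
      show 0 ≤ (if X ω' = X ω then P ω' else 0)
      split_ifs
      · exact hP.1 ω'
      · exact le_rfl) (Finset.mem_univ ω)
  simp only [if_true] at h2
  convert h2 using 1

theorem isLaw_mixl51 {I Ω : Type} [Fintype I] [Fintype Ω] {p : I → ℝ} {Q : I → Ω → ℝ}
    (hp : IsLaw p) (hQ : ∀ i, IsLaw (Q i)) : IsLaw (mixl p Q) := by
  refine ⟨fun z => mul_nonneg (hp.1 _) ((hQ _).1 _), ?_⟩
  rw [Fintype.sum_prod_type]
  unfold mixl
  simp only
  have h1 : ∀ i, ∑ ω, p i * Q i ω = p i := fun i => by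
    rw [← Finset.mul_sum, (hQ i).2, mul_one]
  simp only [h1]
  exact hp.2

theorem lawmix51 {I Ω δ ε : Type} [Fintype I] [Fintype Ω] (p : I → ℝ) (Q : I → Ω → ℝ)
    (T : I × Ω → δ) (F : I → Ω → ε)
    (hT : ∀ i ω j ω', T (j, ω') = T (i, ω) ↔ j = i ∧ F j ω' = F i ω) (i : I) (ω : Ω) :
    law (mixl p Q) T (T (i, ω)) = p i * law (Q i) (F i) (F i ω) := by
  classical
  unfold law
  rw [Fintype.sum_prod_type, Finset.sum_eq_single i]
  · rw [Finset.mul_sum]
    refine Finset.sum_congr rfl fun ω' _ => ?_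
    by_cases h : F i ω' = F i ω
    · rw [if_pos ((hT i ω i ω').2 ⟨rfl, h⟩), if_pos h]
      rfl
    · rw [if_neg (fun h' => h ((hT i ω i ω').1 h').2), if_neg h, mul_zero]
  · intro j _ hj
    refine Finset.sum_eq_zero fun ω' _ => ?_
    rw [if_neg (fun h' => hj ((hT i ω j ω').1 h').1)]
  · intro h
    exact absurd (Finset.mem_univ i) h

theorem entmix51 {I Ω δ ε : Type} [Fintype I] [Fintype Ω] {p : I → ℝ} {Q : I → Ω → ℝ}
    (hp : IsLaw p) (hQ : ∀ i, IsLaw (Q i)) (T : I × Ω → δ) (F : I → Ω → ε)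
    (hT : ∀ i ω j ω', T (j, ω') = T (i, ω) ↔ j = i ∧ F j ω' = F i ω) :
    ent (mixl p Q) T = -∑ i, p i * Real.log (p i) + ∑ i, p i * ent (Q i) (F i) := by
  have h0 : ent (mixl p Q) T = -∑ i, ∑ ω, (p i * Q i ω) *
      Real.log (p i * law (Q i) (F i) (F i ω)) := by
    unfold ent
    rw [Fintype.sum_prod_type]
    congr 1
    refine Finset.sum_congr rfl fun i _ => Finset.sum_congr rfl fun ω _ => ?_
    rw [lawmix51 p Q T F hT]
    rfl
  have h1 : ∀ i ω, (p i * Q i ω) * Real.log (p i * law (Q i) (F i) (F i ω)) =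
      p i * Real.log (p i) * Q i ω + p i * (Q i ω * Real.log (law (Q i) (F i) (F i ω))) := by
    intro i ω
    by_cases h : p i * Q i ω = 0
    · rcases mul_eq_zero.1 h with h | h <;> simp [h]
    · have ha : p i ≠ 0 := fun h' => h (by rw [h', zero_mul])
      have hb : Q i ω ≠ 0 := fun h' => h (by rw [h', mul_zero])
      rw [Real.log_mul ha (law_pos51 (hQ i) (F i) hb).ne']
      ring
  have h2 : ∀ i, ∑ ω, (p i * Q i ω) * Real.log (p i * law (Q i) (F i) (F i ω)) =
      p i * Real.log (p i) - p i * ent (Q i) (F i) := by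
    intro i
    rw [Finset.sum_congr rfl fun ω _ => h1 i ω, Finset.sum_add_distrib, ← Finset.mul_sum,
      ← Finset.mul_sum, (hQ i).2]
    unfold ent
    ring
  rw [h0, Finset.sum_congr rfl fun i _ => h2 i, Finset.sum_sub_distrib]
  ring

theorem ent_const51 {Ω ε : Type} [Fintype Ω] {P : Ω → ℝ} (hP : IsLaw P) (c : ε) :
    ent P (fun _ => c) = 0 := by
  classical
  unfold ent law
  simp [hP.2]

theorem ent_fst51 {I Ω γ : Type} [Fintype I] [Fintype Ω] {p : I → ℝ} {Q : I → Ω → ℝ}
    (hQ : ∀ i, IsLaw (Q i)) (Z : I → γ) :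
    ent (mixl p Q) (fun z => Z z.1) = ent p Z := by
  classical
  have h1 : ∀ c, law (mixl p Q) (fun z => Z z.1) c = law p Z c := by
    intro c
    unfold law
    rw [Fintype.sum_prod_type]
    refine Finset.sum_congr rfl fun i _ => ?_
    by_cases h : Z i = c
    · simp only [h, if_true]
      show ∑ ω, p i * Q i ω = p i
      rw [← Finset.mul_sum, (hQ i).2, mul_one]
    · simp [h]
  unfold ent
  rw [Fintype.sum_prod_type]
  congr 1
  refine Finset.sum_congr rfl fun i _ => ?_
  simp only [h1]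
  show ∑ ω, p i * Q i ω * Real.log (law p Z (Z i)) = _
  rw [← Finset.sum_mul, ← Finset.mul_sum, (hQ i).2, mul_one]

theorem ent_snd51 {I Ω α : Type} [Fintype I] [Fintype Ω] {p : I → ℝ} {R : Ω → ℝ}
    (hp : IsLaw p) (X' : Ω → α) :
    ent (prd p R) (fun z => X' z.2) = ent R X' := by
  classical
  have h1 : ∀ c, law (prd p R) (fun z => X' z.2) c = law R X' c := by
    intro c
    unfold law
    rw [Fintype.sum_prod_type_right]
    refine Finset.sum_congr rfl fun ω _ => ?_
    by_cases h : X' ω = c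
    · simp only [h, if_true]
      show ∑ i, p i * R ω = R ω
      rw [← Finset.sum_mul, hp.2, one_mul]
    · simp [h]
  unfold ent
  rw [Fintype.sum_prod_type_right]
  congr 1
  refine Finset.sum_congr rfl fun ω _ => ?_
  simp only [h1]
  show ∑ i, p i * R ω * Real.log (law R X' (X' ω)) = _
  rw [← Finset.sum_mul, ← Finset.sum_mul, hp.2, one_mul]

theorem ent_prd51 {I Ω α γ : Type} [Fintype I] [Fintype Ω] {p : I → ℝ} {R : Ω → ℝ}
    (hp : IsLaw p) (hR : IsLaw R) (Z : I → γ) (X' : Ω → α) :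
    ent (prd p R) (fun z => (Z z.1, X' z.2)) = ent p Z + ent R X' := by
  classical
  have h1 : ∀ c a, law (prd p R) (fun z => (Z z.1, X' z.2)) (c, a) = law p Z c * law R X' a := by
    intro c a
    unfold law
    rw [Fintype.sum_prod_type, Finset.sum_mul]
    refine Finset.sum_congr rfl fun i _ => ?_
    rw [Finset.mul_sum]
    refine Finset.sum_congr rfl fun ω _ => ?_
    by_cases h : Z i = c
    · by_cases h' : X' ω = a
      · simp [h, h', prd]
      · simp [h, h']
    · simp [h]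
  have h2 : ∀ i ω, (p i * R ω) * Real.log (law p Z (Z i) * law R X' (X' ω)) =
      (p i * Real.log (law p Z (Z i))) * R ω + p i * (R ω * Real.log (law R X' (X' ω))) := by
    intro i ω
    by_cases h : p i * R ω = 0
    · rcases mul_eq_zero.1 h with h | h <;> simp [h]
    · have ha : p i ≠ 0 := fun h' => h (by rw [h', zero_mul])
      have hb : R ω ≠ 0 := fun h' => h (by rw [h', mul_zero])
      rw [Real.log_mul (law_pos51 hp Z ha).ne' (law_pos51 hR X' hb).ne']
      ring
  have h3 : ent (prd p R) (fun z => (Z z.1, X' z.2)) =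
      -∑ i, ∑ ω, (p i * R ω) * Real.log (law p Z (Z i) * law R X' (X' ω)) := by
    unfold ent
    rw [Fintype.sum_prod_type]
    simp only [h1]
    rfl
  rw [h3]
  simp only [h2, Finset.sum_add_distrib]
  have h4 : ∑ i, ∑ ω, p i * Real.log (law p Z (Z i)) * R ω =
      ∑ i, p i * Real.log (law p Z (Z i)) :=
    Finset.sum_congr rfl fun i _ => by rw [← Finset.mul_sum, hR.2, mul_one]
  have h5 : ∑ i, ∑ ω, p i * (R ω * Real.log (law R X' (X' ω))) =
      ∑ ω, R ω * Real.log (law R X' (X' ω)) := by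
    have h6 : ∀ i, ∑ ω, p i * (R ω * Real.log (law R X' (X' ω))) =
        p i * ∑ ω, R ω * Real.log (law R X' (X' ω)) := fun i => by rw [← Finset.mul_sum]
    rw [Finset.sum_congr rfl fun i _ => h6 i, ← Finset.sum_mul, hp.2, one_mul]
  rw [h4, h5]
  unfold ent
  ring

theorem thmL7 : Pool.Agent.Helper6.NX.S_L7 := by
  intro I Ω α β γ _ _ p Q X Y Z hp hQ
  refine ⟨isLaw_mixl51 hp hQ, ?_, ?_, ent_fst51 hQ Z, ?_⟩
  · unfold cent
    rw [entmix51 hp hQ (fun z => (X z.1 z.2, (Y z.1 z.2, z.1))) (fun i ω => (X i ω, Y i ω)) (by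
        intro i ω j ω'
        simp only [Prod.mk.injEq]
        tauto),
      entmix51 hp hQ (fun z => (Y z.1 z.2, z.1)) Y (by
        intro i ω j ω'
        simp only [Prod.mk.injEq]
        tauto)]
    have h1 : ∀ i, p i * (ent (Q i) (fun ω => (X i ω, Y i ω)) - ent (Q i) (Y i)) =
        p i * ent (Q i) (fun ω => (X i ω, Y i ω)) - p i * ent (Q i) (Y i) := fun i => by ring
    rw [Finset.sum_congr rfl fun i _ => h1 i, Finset.sum_sub_distrib]
    ring
  · unfold cent
    rw [entmix51 hp hQ (fun z => (X z.1 z.2, z.1)) X (by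
        intro i ω j ω'
        simp only [Prod.mk.injEq]
        tauto),
      entmix51 hp hQ (fun z => z.1) (fun _ _ => ()) (by
        intro i ω j ω'
        simp)]
    have h1 : ∀ i, p i * ent (Q i) (fun _ => ()) = 0 := fun i => by
      rw [ent_const51 (hQ i), mul_zero]
    rw [Finset.sum_congr rfl fun i _ => h1 i]
    simp
  · intro R X' hR
    exact ⟨isLaw_mixl51 (Q := fun _ => R) hp (fun _ => hR), ent_prd51 hp hR Z X',
      ent_fst51 (Q := fun _ => R) (fun _ => hR) Z, ent_snd51 hp X'⟩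

end Pool.Agent.Helper51.NX
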