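import Pool.Agent.Helper6.NX.GoalsB2

/-! # NX (MP_75608d_al), packet SMO: the expected number of points in small orbits -/

set_option linter.unusedVariables false

namespace Pool.Agent.Helper51.NX

open Pool.Agent.Helper6.NX Pool.Agent.Helper15.An Equiv

theorem sum_pi51 {G : Type} [Fintype G] (F : Fin 3 → G → ℝ) :
    ∑ π : Fin 3 → G, ∏ i, F i (π i) = ∏ i, ∑ g, F i g := by
  classical
  rw [Finset.prod_univ_sum, Fintype.piFinset_univ]

theorem law_pi51 {Ω G : Type} [Fintype Ω] [Fintype G] (P : Ω → ℝ) (f : Ω → G)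
    (Φ : (Fin 3 → G) → ℝ) :
    ∑ y : Fin 3 → G, (∏ i, law P f (y i)) * Φ y =
      ∑ z : Fin 3 → Ω, (∏ i, P (z i)) * Φ (fun i => f (z i)) := by
  classical
  have h1 : ∀ y : Fin 3 → G, (∏ i, law P f (y i)) =
      ∑ z : Fin 3 → Ω, if (fun i => f (z i)) = y then ∏ i, P (z i) else 0 := by
    intro y
    have h2 : (∏ i, law P f (y i)) = ∏ i, ∑ ω, if f ω = y i then P ω else 0 := by
      refine Finset.prod_congr rfl fun i _ => ?_
      unfold law
      refine Finset.sum_congr rfl fun ω _ => ?_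
      by_cases h : f ω = y i <;> simp [h]
    rw [h2, ← sum_pi51 (fun i ω => if f ω = y i then P ω else 0)]
    refine Finset.sum_congr rfl fun z _ => ?_
    by_cases h : (fun i => f (z i)) = y
    · rw [if_pos h]
      refine Finset.prod_congr rfl fun i _ => ?_
      rw [if_pos (congrFun h i)]
    · rw [if_neg h]
      have h3 : ∃ i, f (z i) ≠ y i := by
        by_contra hc
        push Not at hc
        exact h (funext hc)
      obtain ⟨i, hi⟩ := h3
      exact Finset.prod_eq_zero (Finset.mem_univ i) (if_neg hi)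
  simp only [h1, Finset.sum_mul]
  rw [Finset.sum_comm]
  refine Finset.sum_congr rfl fun z _ => ?_
  rw [Finset.sum_eq_single (fun i => f (z i))]
  · rw [if_pos rfl]
  · intro y _ hy
    rw [if_neg (Ne.symm hy), zero_mul]
  · intro h
    exact absurd (Finset.mem_univ _) h

theorem cjl_pi51 {n : ℕ} (ω χ : Perm (Fin n) → ℝ) (Φ : (Fin 3 → Perm (Fin n)) → ℝ) :
    ∑ y : Fin 3 → Perm (Fin n), (∏ i, cjl ω χ (y i)) * Φ y =
      ∑ π : Fin 3 → Perm (Fin n), (∏ i, χ (π i)) *
        ∑ w : Fin 3 → Perm (Fin n), (∏ i, ω (w i)) * Φ (cj3 π w) := by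
  unfold cjl
  rw [law_pi51, ← Equiv.sum_comp
    (Equiv.arrowProdEquivProdArrow (Fin 3) (fun _ => Perm (Fin n)) (fun _ => Perm (Fin n))).symm,
    Fintype.sum_prod_type_right]
  refine Finset.sum_congr rfl fun π _ => ?_
  rw [Finset.mul_sum]
  refine Finset.sum_congr rfl fun w _ => ?_
  have h1 : (∏ i, prd ω χ ((Equiv.arrowProdEquivProdArrow (Fin 3) (fun _ => Perm (Fin n))
      (fun _ => Perm (Fin n))).symm (w, π) i)) = (∏ i, ω (w i)) * ∏ i, χ (π i) := by
    rw [← Finset.prod_mul_distrib]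
    rfl
  rw [h1]
  have h2 : (fun i => (((Equiv.arrowProdEquivProdArrow (Fin 3) (fun _ => Perm (Fin n))
      (fun _ => Perm (Fin n))).symm (w, π) i).1)⁻¹ *
      ((Equiv.arrowProdEquivProdArrow (Fin 3) (fun _ => Perm (Fin n))
      (fun _ => Perm (Fin n))).symm (w, π) i).2 *
      ((Equiv.arrowProdEquivProdArrow (Fin 3) (fun _ => Perm (Fin n))
      (fun _ => Perm (Fin n))).symm (w, π) i).1) = cj3 π w := rfl
  rw [h2]
  ring

theorem marg51 {G : Type} [Fintype G] (χ g : G → ℝ) (hχ : ∑ σ, χ σ = 1) (i : Fin 3) :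
    ∑ π : Fin 3 → G, (∏ j, χ (π j)) * g (π i) = ∑ σ, χ σ * g σ := by
  classical
  have h1 : ∀ π : Fin 3 → G, (∏ j, χ (π j)) * g (π i) =
      ∏ j, χ (π j) * (if j = i then g (π j) else 1) := by
    intro π
    rw [Finset.prod_mul_distrib, Finset.prod_ite_eq' Finset.univ i (fun j => g (π j))]
    simp
  rw [Finset.sum_congr rfl fun π _ => h1 π,
    sum_pi51 (fun j σ => χ σ * (if j = i then g σ else 1)),
    Finset.prod_eq_single i]
  · simp
  · intro j _ hj
    simp [hj, hχ]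
  · intro h
    exact absurd (Finset.mem_univ i) h

theorem thmSMO (hl5 : Pool.Agent.Helper6.NX.S_L5) (hl7 : Pool.Agent.Helper6.NX.S_L7)
    (hcmp : Pool.Agent.Helper6.NX.S_CMP) : Pool.Agent.Helper6.NX.S_SMO := by
  classical
  intro n J χ ω ρ e hω hχ hρ hJ hn hρJ hfix hpr
  rw [cjl_pi51 ω χ (fun y =>
    ((Finset.univ.filter fun p : Fin n => (orb y p).card ≤ J).card : ℝ))]
  set B : ℝ := n * (512 * (ρ + J / √(n : ℝ)) ^ 2) with hB
  have hB0 : 0 ≤ B := by positivity
  have hn0 : (0 : ℝ) < n := by exact_mod_cast hn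
  have hωprod : ∀ w : Fin 3 → Perm (Fin n), 0 ≤ ∏ i, ω (w i) := fun w =>
    Finset.prod_nonneg fun i _ => hω.1 _
  have hχprod : ∀ w : Fin 3 → Perm (Fin n), 0 ≤ ∏ i, χ (w i) := fun w =>
    Finset.prod_nonneg fun i _ => hχ.1 _
  have hω1 : ∑ w : Fin 3 → Perm (Fin n), ∏ i, ω (w i) = 1 := by
    rw [sum_pi51 (fun _ => ω), hω.2]
    simp
  have hχ1 : ∑ w : Fin 3 → Perm (Fin n), ∏ i, χ (w i) = 1 := by
    rw [sum_pi51 (fun _ => χ), hχ.2]
    simp
  have inner : ∀ π : Fin 3 → Perm (Fin n),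
      ∑ w : Fin 3 → Perm (Fin n), (∏ i, ω (w i)) *
        ((Finset.univ.filter fun p : Fin n => (orb (cj3 π w) p).card ≤ J).card : ℝ) ≤
      B + ∑ i, (fixc (π i) : ℝ) / ρ := by
    intro π
    have hs : 0 ≤ ∑ i, (fixc (π i) : ℝ) / ρ := Finset.sum_nonneg fun i _ => by positivity
    by_cases h : ∀ i, (fixc (π i) : ℝ) ≤ ρ * n
    · have := hcmp n J π ω ρ hω hρ.le hJ hn hρJ h hpr
      linarith
    · push Not at h
      obtain ⟨i, hi⟩ := h
      have h1 : (n : ℝ) ≤ ∑ i, (fixc (π i) : ℝ) / ρ := by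
        have h2 : (n : ℝ) ≤ (fixc (π i) : ℝ) / ρ := by
          rw [le_div_iff₀ hρ]
          linarith
        exact h2.trans (Finset.single_le_sum (f := fun i => (fixc (π i) : ℝ) / ρ)
          (fun j _ => by positivity) (Finset.mem_univ i))
      have h3 : ∑ w : Fin 3 → Perm (Fin n), (∏ i, ω (w i)) *
          ((Finset.univ.filter fun p : Fin n => (orb (cj3 π w) p).card ≤ J).card : ℝ) ≤
          ∑ w : Fin 3 → Perm (Fin n), (∏ i, ω (w i)) * (n : ℝ) := by
        refine Finset.sum_le_sum fun w _ => mul_le_mul_of_nonneg_left ?_ (hωprod w)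
        have h4 := Finset.card_filter_le (Finset.univ : Finset (Fin n))
          (fun p => (orb (cj3 π w) p).card ≤ J)
        rw [Finset.card_univ, Fintype.card_fin] at h4
        exact_mod_cast h4
      rw [← Finset.sum_mul, hω1, one_mul] at h3
      linarith
  calc ∑ π : Fin 3 → Perm (Fin n), (∏ i, χ (π i)) *
        ∑ w : Fin 3 → Perm (Fin n), (∏ i, ω (w i)) *
          ((Finset.univ.filter fun p : Fin n => (orb (cj3 π w) p).card ≤ J).card : ℝ)
      ≤ ∑ π : Fin 3 → Perm (Fin n), (∏ i, χ (π i)) * (B + ∑ i, (fixc (π i) : ℝ) / ρ) :=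
        Finset.sum_le_sum fun π _ => mul_le_mul_of_nonneg_left (inner π) (hχprod π)
    _ = B + ∑ i : Fin 3, (∑ σ, χ σ * (fixc σ : ℝ)) / ρ := by
        simp only [mul_add, Finset.sum_add_distrib, Finset.mul_sum]
        rw [← Finset.sum_mul, hχ1, one_mul, Finset.sum_comm]
        congr 1
        refine Finset.sum_congr rfl fun i _ => ?_
        rw [← marg51 χ (fun σ => (fixc σ : ℝ)) hχ.2 i, Finset.sum_div]
        refine Finset.sum_congr rfl fun π _ => ?_
        ring
    _ ≤ B + ∑ i : Fin 3, (e * n) / ρ := by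
        gcongr
    _ = (3 * e / ρ + 512 * (ρ + J / √(n : ℝ)) ^ 2) * n := by
        rw [Finset.sum_const, Finset.card_univ, Fintype.card_fin, hB]
        simp only [nsmul_eq_mul]
        push_cast
        ring

end Pool.Agent.Helper51.NX
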