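import Pool.Agent.Helper6.NX.GoalsB

/-! # NX (MP_75608d_al), packet VC: convolution increases the increments -/

set_option linter.unusedVariables false

namespace Pool.Agent.Helper51.NX

open Pool.Agent.Helper6.NX Equiv

theorem ent_congr51 {Ω α β : Type} [Fintype Ω] (P : Ω → ℝ) (X : Ω → α) (Y : Ω → β)
    (h : ∀ ω ω', X ω = X ω' ↔ Y ω = Y ω') : ent P X = ent P Y := by
  classical
  unfold ent law
  congr 1
  refine Finset.sum_congr rfl fun ω _ => ?_
  congr 2
  refine Finset.sum_congr rfl fun ω' _ => ?_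
  by_cases hx : X ω' = X ω
  · rw [if_pos hx, if_pos ((h ω' ω).1 hx)]
  · rw [if_neg hx, if_neg (fun hy => hx ((h ω' ω).2 hy))]

theorem res_eq51 {n : ℕ} (D : Finset (Fin n)) (f g : Perm (Fin n)) :
    res D f = res D g ↔ ∀ x ∈ D, f x = g x := by
  constructor
  · intro h x hx
    have h1 := congrFun h x
    unfold res at h1
    rw [if_pos hx, if_pos hx] at h1
    exact Option.some.inj h1
  · intro h
    funext x
    unfold res
    split_ifs with hx
    · rw [h x hx]
    · rfl

theorem res_im51 {n : ℕ} (D : Finset (Fin n)) (h f g : Perm (Fin n)) :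
    res (im h D) f = res (im h D) g ↔ res D (f * h) = res D (g * h) := by
  rw [res_eq51, res_eq51]
  constructor
  · intro H x hx
    exact H (h x) (Finset.mem_image_of_mem h hx)
  · intro H y hy
    obtain ⟨x, hx, rfl⟩ := Finset.mem_image.1 hy
    exact H x hx

theorem conv_eq51 {G : Type} [Group G] [Fintype G] (μ ν : G → ℝ) :
    conv μ ν = law (mixl ν (fun _ => μ)) (fun z : G × G => z.2 * z.1) := by
  classical
  funext g
  unfold conv law
  rw [← Equiv.sum_comp (Equiv.prodComm G G)]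
  refine Finset.sum_congr rfl fun z _ => ?_
  simp only [Equiv.prodComm_apply, Prod.fst_swap, Prod.snd_swap, prd, mixl]
  rw [mul_comm (ν z.1)]

theorem thmVC (hl2 : Pool.Agent.Helper6.NX.S_L2) (hl4 : Pool.Agent.Helper6.NX.S_L4)
    (hl5 : Pool.Agent.Helper6.NX.S_L5) (hl7 : Pool.Agent.Helper6.NX.S_L7)
    (havg : Pool.Agent.Helper6.NX.S_AVG) (hvp : Pool.Agent.Helper6.NX.S_VP) :
    Pool.Agent.Helper6.NX.S_VC := by
  intro n ν hn hν
  have hlog : 0 < Real.log n := Real.log_pos (by exact_mod_cast hn)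
  have hP : IsLaw (mixl ν (fun _ => ν)) :=
    (hl7 (Perm (Fin n)) (Perm (Fin n)) Unit Unit Unit ν (fun _ => ν) (fun _ _ => ())
      (fun _ _ => ()) (fun _ => ()) hν (fun _ => hν)).1
  have hconv : IsLaw (conv ν ν) := by
    rw [conv_eq51]
    exact (hl5 _ _ Unit _ (fun z : Perm (Fin n) × Perm (Fin n) => z.2 * z.1) (fun _ => ()) hP).1
  have h3 : ∀ (p : Fin n) (D : Finset (Fin n)),
      ∑ h, ν h * FF ν (h p) (im h D) ≤ FF (conv ν ν) p D := by
    intro p D
    rw [(hvp n (conv ν ν) hn hconv).1 p D]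
    have e1 : cent (conv ν ν) (fun h => h p) (res D) =
        cent (mixl ν (fun _ => ν)) (fun z => (z.2 * z.1) p) (fun z => res D (z.2 * z.1)) := by
      unfold cent
      rw [conv_eq51]
      rw [(hl5 _ _ _ _ (fun z : Perm (Fin n) × Perm (Fin n) => z.2 * z.1)
          (fun ω => (ω p, res D ω)) hP).2.2.1,
        (hl5 _ _ _ _ (fun z : Perm (Fin n) × Perm (Fin n) => z.2 * z.1)
          (res D) hP).2.2.1]
    have e2 := (hl4 _ _ _ _ (mixl ν (fun _ => ν))
      (fun z : Perm (Fin n) × Perm (Fin n) => (z.2 * z.1) p) (fun z => z.1)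
      (fun z => res D (z.2 * z.1)) hP).1
    have e3 : cent (mixl ν (fun _ => ν))
        (fun z : Perm (Fin n) × Perm (Fin n) => (z.2 * z.1) p)
        (fun z => (z.1, res D (z.2 * z.1))) =
        cent (mixl ν (fun _ => ν)) (fun z : Perm (Fin n) × Perm (Fin n) => z.2 (z.1 p))
          (fun z => (res (im z.1 D) z.2, z.1)) := by
      have key : ∀ z z' : Perm (Fin n) × Perm (Fin n),
          ((z.1, res D (z.2 * z.1)) = (z'.1, res D (z'.2 * z'.1)) ↔
            (res (im z.1 D) z.2, z.1) = (res (im z'.1 D) z'.2, z'.1)) := by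
        rintro ⟨h, f⟩ ⟨h', f'⟩
        simp only [Prod.mk.injEq]
        constructor
        · rintro ⟨rfl, hr⟩
          exact ⟨(res_im51 D h f f').2 hr, rfl⟩
        · rintro ⟨hr, rfl⟩
          exact ⟨rfl, (res_im51 D h f f').1 hr⟩
      unfold cent
      congr 1
      · refine ent_congr51 _ _ _ fun z z' => ?_
        have k := key z z'
        rw [Prod.mk.injEq, Prod.mk.injEq (z.2 (z.1 p))]
        exact and_congr (by rfl) k
      · exact ent_congr51 _ _ _ fun z z' => key z z'
    have e4 := (hl7 (Perm (Fin n)) (Perm (Fin n)) (Fin n) (Fin n → Option (Fin n)) Unit ν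
      (fun _ => ν) (fun h f => f (h p)) (fun h f => res (im h D) f) (fun _ => ()) hν
      (fun _ => hν)).2.1
    rw [e3, e4] at e2
    rw [e1, le_div_iff₀ hlog, Finset.sum_mul]
    refine le_trans (le_of_eq ?_) e2
    refine Finset.sum_congr rfl fun h _ => ?_
    rw [(hvp n ν hn hν).1 (h p) (im h D), mul_assoc, div_mul_cancel₀ _ hlog.ne']
  have h1 : ∀ k, VV ν k ≤ VV (conv ν ν) k := by
    intro k
    rw [(hvp n ν hn hν).2.2.2.1 k, (hvp n (conv ν ν) hn hconv).2.2.2.1 k]
    unfold avF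
    split_ifs with hk
    · refine mul_le_mul_of_nonneg_left ?_ (by positivity)
      have f1 : ∀ h : Perm (Fin n), ∑ π : Perm (Fin n),
          FF ν (h (π ⟨k, hk⟩)) (im h (im π (ini n k))) =
          ∑ π : Perm (Fin n), FF ν (π ⟨k, hk⟩) (im π (ini n k)) := by
        intro h
        rw [← Equiv.sum_comp (Equiv.mulLeft h) (fun π => FF ν (π ⟨k, hk⟩) (im π (ini n k)))]
        refine Finset.sum_congr rfl fun π _ => ?_
        have f2 : im (h * π) (ini n k) = im h (im π (ini n k)) := by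
          unfold im
          rw [Finset.image_image]
          rfl
        simp only [Equiv.coe_mulLeft, f2]
        rfl
      calc ∑ π : Perm (Fin n), FF ν (π ⟨k, hk⟩) (im π (ini n k))
          = ∑ h, ν h * ∑ π : Perm (Fin n), FF ν (π ⟨k, hk⟩) (im π (ini n k)) := by
            rw [← Finset.sum_mul, hν.2, one_mul]
        _ = ∑ h, ∑ π : Perm (Fin n), ν h * FF ν (h (π ⟨k, hk⟩)) (im h (im π (ini n k))) := by
            refine Finset.sum_congr rfl fun h _ => ?_
            rw [← f1 h, Finset.mul_sum]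
        _ = ∑ π : Perm (Fin n), ∑ h, ν h * FF ν (h (π ⟨k, hk⟩)) (im h (im π (ini n k))) :=
            Finset.sum_comm
        _ ≤ ∑ π : Perm (Fin n), FF (conv ν ν) (π ⟨k, hk⟩) (im π (ini n k)) :=
            Finset.sum_le_sum fun π _ => h3 _ _
    · exact le_rfl
  refine ⟨h1, ?_, h3⟩
  intro k
  rw [(hvp n ν hn hν).2.2.2.2.2.2 k, (hvp n (conv ν ν) hn hconv).2.2.2.2.2.2 k]
  exact mul_le_mul_of_nonneg_left (Finset.sum_le_sum fun i _ => h1 i) hlog.le

end Pool.Agent.Helper51.NX
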