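import Pool.Agent.Helper6.NX.GoalsA

/-! # NX (MP_75608d_al), packet WIN: a window of scales -/

namespace Pool.Agent.Helper51.NX

open Pool.Agent.Helper6.NX

theorem H_nonneg51 {Ω : Type} [Fintype Ω] {μ : Ω → ℝ} (h : IsLaw μ) : 0 ≤ H μ := by
  classical
  unfold H ent
  rw [neg_nonneg]
  refine Finset.sum_nonpos fun ω _ => ?_
  have h1 : law μ (fun g => g) ω ≤ 1 := by
    unfold law
    rw [← h.2]
    refine Finset.sum_le_sum fun ω' _ => ?_
    split_ifs
    · exact le_rfl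
    · exact h.1 ω'
  have h0 : 0 ≤ law μ (fun g => g) ω := by
    unfold law
    refine Finset.sum_nonneg fun ω' _ => ?_
    split_ifs
    · exact h.1 ω'
    · exact le_rfl
  exact mul_nonpos_of_nonneg_of_nonpos (h.1 ω) (Real.log_nonpos h0 h1)

theorem thmWIN : Pool.Agent.Helper6.NX.S_WIN := by
  intro G _ _ k I x M τ e₀ H₀ Hm hM hτ hτ1 he hstart hlast hlow
  by_contra hcon
  push Not at hcon
  have hM0 : 0 < M := by linarith
  obtain ⟨μ₀, hμ₀, hni₀, hH₀⟩ := hstart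
  have hH0 : 0 ≤ H₀ := (H_nonneg51 hμ₀).trans hH₀
  have claim : ∀ j ≤ I, ∃ μ : G → ℝ, IsLaw μ ∧ NI x μ (e₀ / M ^ (I - j)) ∧
      H μ ≤ (1 - τ) ^ j * H₀ := by
    intro j
    induction j with
    | zero =>
      intro _
      exact ⟨μ₀, hμ₀, by simpa using hni₀, by simpa using hH₀⟩
    | succ j ih =>
      intro hj
      obtain ⟨μ, h1, h2, h3⟩ := ih (by omega)
      have e1 : I - j = (I - (j + 1)) + 1 := by omega
      have e2 : M * (e₀ / M ^ (I - j)) = e₀ / M ^ (I - (j + 1)) := by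
        rw [e1, pow_succ]
        field_simp
      have e3 : e₀ / M ^ (I - (j + 1)) ≤ e₀ :=
        div_le_self he.le (one_le_pow₀ hM)
      have e4 : (1 - τ) ^ j ≤ 1 := pow_le_one₀ (by linarith) (by linarith)
      have e5 : H μ ≤ H₀ := h3.trans (mul_le_of_le_one_left hH0 e4)
      obtain ⟨μ', h4, h5, h6⟩ := hcon μ (e₀ / M ^ (I - j)) h1 (by positivity)
        (by rw [e2]; exact e3) h2 e5
      refine ⟨μ', h4, by rw [← e2]; exact h5, ?_⟩
      have e6 : (1 - τ) * H μ ≤ (1 - τ) * ((1 - τ) ^ j * H₀) :=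
        mul_le_mul_of_nonneg_left h3 (by linarith)
      calc H μ' ≤ (1 - τ) * H μ := h6.le
        _ ≤ (1 - τ) * ((1 - τ) ^ j * H₀) := e6
        _ = (1 - τ) ^ (j + 1) * H₀ := by ring
  obtain ⟨μ, h1, h2, h3⟩ := claim I le_rfl
  have h4 : NI x μ e₀ := by simpa using h2
  have h5 := hlow μ h1 h4
  linarith

end Pool.Agent.Helper51.NX
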